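import Pool.Agent.helper81.CI.All
import Pool.Agent.helper81.CX.All2

/-! # The exponential rate of the inner measure of symmetry `σ_d` of bodies of constant width exists

Sketch of the proof. For a body `C` of width `1` put `far C x = max {|x - c| : c ∈ C}`; then `C = {far C ≤ 1}`. For a centre `z` and a
radius `ρ` let `A_z(u, v) = {x : far C x ≤ u, far C (2z - x) ≤ v}` and `N(ρ) = sup_z vol A_z(ρ, ρ)`. The largest symmetric subset of `C` with
centre `z` is `A_z(1, 1)`, so the inner symmetry of `C` is `N(1)/vol C`.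

*The integral and the volume*. By Prekopa-Leindler `vol A_z(u, v) ≤ vol A_z(m, m)`, `m = (u + v)/2`, and `N` is log-concave. It grows at
most like `exp (4 d (ρ - 1))` to the right of `1`, so it has a supporting exponential `N(ρ) ≤ exp (a (ρ - 1)) N(1)`, `0 ≤ a ≤ 4 d`.
Let `I(C, z, t)` be the integral over `x` of `exp (t (1 - (far C x² + far C (2z - x)²)/2))`. With `t = a/2` the double layer
cake formula gives `I(C, z, t) ≤ 31 d N(1)`, for all centres `z` with the same `t`; and `N(1) ≤ sup_z I(C, z, t)` for all `t ≥ 0`.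

*Products*. Let `C₁ ⊆ ℝ^d`, `C₂ ⊆ ℝ^e` have width `1`, `α + β = 1`. The set `K` of the points `(√α u, √β v)`, `u ∈ C₁`, `v ∈ C₂`, has
diameter at most `1`, so it is contained in a body `C` of width `1` (Maehara's completion). Its volume is at least
`√α^d √β^e vol C₁ vol C₂`. As `far C ≥ far K` and `far K (x, y)² = α far C₁ (x/√α)² + β far C₂ (y/√β)²`,
`sup_z I(C, z, T) ≤ √α^d √β^e sup_z I(C₁, z, α T) sup_z I(C₂, z, β T)`.

Both together with `α = t₁/(t₁ + t₂)` give `σ_(d + e) ≤ 961 d e σ_d σ_e`; with `m` equal factors the loss is only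
`(31 d)^m`, `σ_(m d) ≤ (31 d σ_d)^m`. So the limit `α` exists and `α^d ≤ 31 d σ_d`. The bounds `0.7808 ≤ α ≤ 0.991` are those of
the hand-in InnerRates. -/

open MeasureTheory Set Filter Topology
open scoped ENNReal
open Pool.Agent.helper81.CW

namespace Pool.Agent.Results.MP_447e26_gt.InnerLimit

/-- `σ_d^(1/d)` converges to a number `α`, `0.7808 ≤ α ≤ 0.991`, with `α^d ≤ 31 d σ_d` for every `d ≥ 1`; and
`σ_(d+e) ≤ 961 d e σ_d σ_e`. -/
theorem result :
    (∃ α : ℝ, 0.7808 ≤ α ∧ α ≤ 0.991 ∧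
      Tendsto (fun d : ℕ => (sigma d).toReal ^ (1 / (d : ℝ))) atTop (𝓝 α) ∧
      ∀ d : ℕ, 1 ≤ d → ENNReal.ofReal (α ^ d) ≤ ENNReal.ofReal (31 * (d : ℝ)) * sigma d) ∧
    ∀ d e : ℕ, 1 ≤ d → 1 ≤ e →
      sigma (d + e) ≤ ENNReal.ofReal (961 * (d : ℝ) * (e : ℝ)) * (sigma d * sigma e) :=
  ⟨Pool.Agent.CX.a2_AL2, Pool.Agent.CI.all_TWI⟩

end Pool.Agent.Results.MP_447e26_gt.InnerLimit
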