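import Pool.Agent.helper81.CW.Final
import Pool.Agent.helper81.CX.All2

/-! # Exponential decay of the inner measure of symmetry `σ_d` of bodies of constant width

Sketch of the proof.

*Lower bound, all `d ≥ 1`*. Let `C` have width `1`, let `z = 0` be the centre of its circumball, of radius `R`;
`R^2 ≤ d/(2(d+1))` (Jung). By completeness `x ∈ C` as soon as `|x|^2 + 2 h(-x) + R^2 ≤ 1`, where `h` is the support function. So
`C ∩ -C` contains the star body with radial function `φ(max(h(u), h(-u)))`, `φ(t) = -t + √(t^2 + 1 - R^2)`. The odd function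
`(h(x) - h(-x))/2` is `R`-Lipschitz, so by the Gaussian Poincare inequality (proved from Prekopa-Leindler by Maurey's property)
the mean of `|h(u) - 1/2|` is at most `R/√d ≤ s/2`, `s = √(2/(d+1))`. `φ` is convex and decreasing, so by Jensen
`vol(C ∩ -C) ≥ κ_d φ(1/2 + s/2)^d`; compare with the isodiametric inequality `vol C ≤ κ_d 2^(-d)`.

*Lower bound `0.7808^d`, large `d`*. Let `M(u) ± u/2` be the support points of `C` in the directions `±u`, `s = E M(x)` (`x` Gaussian),
`z(x) = a x/√d + mu s`, and let `y(x) ∈ C` be a point at maximal distance from `z(x)`. On average `|y(x)|^2 ≤ 1/2`;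
`|y(x) - M(x') - x'/(2√d)| ≤ 1` for a Gaussian `x'` with correlation `c` to `x`; and `|y(x) - y(x'')| ≤ 1` with correlation `-t`. With multipliers
`1 - mu`, `mu`, `p` they give `E |z(x) - y(x)|^2 ≤ 1 - δ + O(1/√d)`, `δ > 0`: the odd part of `y` is controlled by Cauchy-Schwarz, the
even part by the spectral gap `2` of the Gaussian semigroup on even functions. By concentration the points `mu s ± a u` are in `C` for
most directions `u`, so `C ∩ (2 mu s - C)` contains most of the ball of radius `a` about `mu s`; `2 a > 0.7808` for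
`a = 0.39043`, `mu = 0.6527`, `p = 0.23875`, `t = 0.374`, `c = 0.7489`.

*Upper bound*. The body `M = {|z|^2 + √2 |z^-| ≤ 1/2}` of Arman, Bondarenko, Nazarov, Prymak and Radchenko (`z^-` is the
negative part) has width `1`, and `vol M ≥ c (d+1)^(-5) 1.84^d d^(-d/2)` by the entropy of the number of negative
coordinates. If `c + b` and `c - b` are in `M` then `|b|^2 + 2|⟨c,b⟩| ≤ 1/2 - |c|^2` and the sum of `max(|b_i| - |c_i|, 0)^2` is at most
`(1/2 - |c|^2 - |b|^2)^2 + 4⟨c,b⟩^2`. Cutting into slabs according to `⟨c,b⟩` and a Chernoff bound show that these `b` fill a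
volume of at most `200000 · 1.8234^d d^(-d/2)`, whatever the centre `c` is. -/

open MeasureTheory Set Filter
open scoped ENNReal
open Pool.Agent.helper81.CW

namespace Pool.Agent.Results.MP_447e26_gt.InnerRates

/-- For all large `d` `0.7808^d ≤ σ_d ≤ 0.991^d`, and `σ_d ≥ (√(3 + 2s + 2s²) - 1 - s)^d` with `s = √(2/(d+1))` for every
`d ≥ 1`. -/
theorem result :
    (∀ᶠ d : ℕ in atTop, ENNReal.ofReal (0.7808 ^ d) ≤ sigma d ∧ sigma d ≤ ENNReal.ofReal (0.991 ^ d)) ∧
    ∀ d : ℕ, 0 < d → ENNReal.ofReal ((Real.sqrt (3 + 2 * Real.sqrt (2 / ((d : ℝ) + 1)) + 4 / ((d : ℝ) + 1)) - 1 -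
      Real.sqrt (2 / ((d : ℝ) + 1))) ^ d) ≤ sigma d := by
  refine ⟨Pool.Agent.CX.a2_SG2.and upper_sigma, fun d hd => ?_⟩
  have h := lower_sigma d hd _ rfl
  have h1 : Real.sqrt (2 / ((d : ℝ) + 1)) ^ 2 = 2 / ((d : ℝ) + 1) := Real.sq_sqrt (by positivity)
  have h2 : 2 * Real.sqrt (2 / ((d : ℝ) + 1)) ^ 2 = 4 / ((d : ℝ) + 1) := by
    rw [h1]; ring
  rw [h2] at h
  exact h

end Pool.Agent.Results.MP_447e26_gt.InnerRates
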