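import Pool.Agent.helper71.CL.All
import Pool.Agent.helper81.CX.All2

/-! # The exponential rate of the outer measure of symmetry `τ_d` of bodies of constant width exists

Sketch of the proof. For a body `C` of width `1` put `far C x = max {|x - c| : c ∈ C}`; then `C = {far C ≤ 1}`.

*Products*. Let `C₁ ⊆ ℝ^d`, `C₂ ⊆ ℝ^e` have width `1`, `α + β = 1`. The set `K` of the points `(√α u, √β v)`, `u ∈ C₁`, `v ∈ C₂`, has
diameter at most `1`, so it is contained in a body `C` of width `1` (Maehara's completion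
`(W + T)/2`, where `W` is the intersection of the unit balls with centres in `K` and `T` that of the unit balls with centres in `W`). As
`far C ≥ far K` and `far K (x, y)² = α far C₁ (x/√α)² + β far C₂ (y/√β)²`, the integral `I(C, T)` of `exp (T (1 - far C²))` is at most
`√α^d √β^e I(C₁, α T) I(C₂, β T)`.

*The integral and the volume*. `vol C ≤ I(C, t)` for all `t ≥ 0`. The function `ρ ↦ vol {far C ≤ ρ}` is log-concave (Prekopa-Leindler)
and grows at most like `exp (4 d (ρ - 1))` to the right of `1`, so it has a supporting exponential `exp (a (ρ - 1)) vol C`,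
`0 ≤ a ≤ 4 d`; with `t = a/2` the integral over the level sets is a Gaussian integral and `I(C, t) ≤ 8 √d vol C`.

Both together with `α = t₁/(t₁ + t₂)` give `minVol (d + e) ≤ 64 √d √e minVol d minVol e`; with `m` equal factors the loss is only
`(8 √d)^m`, `minVol (m d) ≤ (8 √d minVol d)^m`. So the limit `β` exists and `β^d ≤ 8 √d minVol d`. Finally
`minVol d/(5(d+1)) ≤ τ_d ≤ minVol d`. The bound `0.8189 ≤ β` is the volume bound of the hand-in OuterRates. -/

open MeasureTheory Set Filter Topology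
open scoped ENNReal
open Pool.Agent.helper81.CW

namespace Pool.Agent.Results.MP_447e26_gt.OuterLimit

/-- the minimal volume ratio: infimum, over all bodies `C ⊆ ℝ^d` of constant width `w`, `w > 0`, of
`vol C / vol (ball of diameter w)` -/
noncomputable def minVol (d : ℕ) : ℝ≥0∞ :=
  ⨅ p : {p : Set (E d) × ℝ // ConstWidth p.1 p.2},
    volume p.1.1 / volume (Metric.closedBall (0 : E d) (p.1.2 / 2))

/-- `τ_d^(1/d)` and `minVol_d^(1/d)` converge to the same number `β`, `0.8189 ≤ β ≤ 0.9`, with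
`β^d ≤ 8 √d minVol_d` for every `d ≥ 1`; and `minVol_(d+e) ≤ 64 √d √e minVol_d minVol_e`. -/
theorem result :
    (∃ β : ℝ, 0.8189 ≤ β ∧ β ≤ 0.9 ∧
      Tendsto (fun d : ℕ => (tau d).toReal ^ (1 / (d : ℝ))) atTop (𝓝 β) ∧
      Tendsto (fun d : ℕ => (minVol d).toReal ^ (1 / (d : ℝ))) atTop (𝓝 β) ∧
      ∀ d : ℕ, 1 ≤ d → ENNReal.ofReal (β ^ d) ≤ ENNReal.ofReal (8 * Real.sqrt (d : ℝ)) * minVol d) ∧
    ∀ d e : ℕ, 1 ≤ d → 1 ≤ e → minVol (d + e) ≤
      ENNReal.ofReal (64 * Real.sqrt (d : ℝ) * Real.sqrt (e : ℝ)) * (minVol d * minVol e) :=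
  ⟨Pool.Agent.CX.a2_BL2, Pool.Agent.CL.all_TWO⟩

end Pool.Agent.Results.MP_447e26_gt.OuterLimit
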