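import Pool.Agent.helper81.CW.Final
import Pool.Agent.helper81.CX.All2

/-! # A lower bound for the volume of bodies of constant width, and the outer measure of symmetry `τ_d`

`κ` is the volume of the ball of diameter `1`. Schramm (1988) proved `vol C ≥ (√3 - 1)^d κ` for bodies `C` of width `1`. We prove
`vol C ≥ 0.8189^d κ` for all large `d`, and that `τ_d` is the minimal volume ratio up to the factor `5(d+1)`.

*The volume bound, sketch.* Let `C` have width `1`, circumcentre `0`; by Jung `|y|^2 ≤ 1/2` on `C`. For a direction `u` the support points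
`M(u) ± u/2` of `C` in the directions `±u` are in `C`, `M` is even and `1`-Lipschitz. By completeness a point `v` is in `C` as soon as
`|v - y| ≤ 1` for all `y ∈ C`. Put `s = E M(x)` (`x` Gaussian) and, for `x` of length about `√d`,
`z(x) = a x/√d + (mu - b) s + b M(x)`. Let `y(x) ∈ C` be a point at maximal distance from `z(x)`. The following constraints hold on average:
`|y(x)|^2 ≤ 1/2`; `|y(x) - M(x') - x'/(2√d)| ≤ 1` for a Gaussian `x'` with correlation `c` to `x`; and
`|y(x) - y(x'')| ≤ 1` with correlation `-t`. With multipliers `1 - mu`, `mu`, `p` they give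
`E |z(x) - y(x)|^2 ≤ 1 - δ + O(1/√d)`, `δ > 0`: the odd part of `y` is controlled by Cauchy-Schwarz, the even part by the spectral gap `2` of the
Gaussian semigroup on even functions (`E⟨f(x), f(x')⟩ ≤ c^2 E|f|^2` for even `f` of mean `0`). The distance function is Lipschitz, so
by concentration `z(x)` and `z(-x)` are in `C` for most directions. `z` is injective and
`|det Dz(x)| |det Dz(-x)| ≥ (a^2 - b^2/4)^d` (`M` is a symmetric derivative of norm at most `1/2` on the tangent space), so by
the change of variables and the inequality of the arithmetic and geometric mean `vol C ≥ (1/2) √(a^2 - b^2/4)^d 2^d κ`, and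
`2 √(a^2 - b^2/4) > 0.81895` for `a = 0.42456`, `b = 0.2243`, `mu = 0.7412`, `p = 0.1759`, `t = 0.3605`, `c = 0.861`.

*`τ_d ≤ minVol_d`*: a convex set symmetric about `c` which contains `C` contains `c + (C - C)/2 = c + ball(1/2)`.

*`τ_d ≥ minVol_d / (5(d+1))`*: `conv(C ∪ -C)` is the union over `t ∈ [0,1]` of the sets `t C - (1-t) C`, each of diameter `1`. For `t` within
`1/d` of a grid point `j/d` the set lies in the `R/d`-neighbourhood of the set of the grid point, a set of diameter at most `1 + 2R/d`, so
by the isodiametric inequality `vol conv(C ∪ -C) ≤ (d+1)(1 + 2R/d)^d κ ≤ 5(d+1) κ`.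

*The upper bound* `0.9^d` is the volume of the body `|z|^2 + √2 |z^-| ≤ 1/2` of Arman, Bondarenko, Nazarov, Prymak and Radchenko (proved here
again). -/

open MeasureTheory Set Filter
open scoped ENNReal
open Pool.Agent.helper81.CW

namespace Pool.Agent.Results.MP_447e26_gt.OuterRates

/-- the minimal volume ratio: infimum, over all bodies `C ⊆ ℝ^d` of constant width `w`, `w > 0`, of
`vol C / vol (ball of diameter w)` -/
noncomputable def minVol (d : ℕ) : ℝ≥0∞ :=
  ⨅ p : {p : Set (E d) × ℝ // ConstWidth p.1 p.2},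
    volume p.1.1 / volume (Metric.closedBall (0 : E d) (p.1.2 / 2))

/-- For all large `d` `0.8189^d ≤ minVol_d` and `0.8188^d ≤ τ_d ≤ 0.9^d`; and
`minVol d / (5(d+1)) ≤ τ_d ≤ minVol d` for every `d ≥ 1`. -/
theorem result :
    (∀ᶠ d : ℕ in atTop, ENNReal.ofReal (0.8189 ^ d) ≤ minVol d ∧
      ENNReal.ofReal (0.8188 ^ d) ≤ tau d ∧ tau d ≤ ENNReal.ofReal (0.9 ^ d)) ∧
    ∀ d : ℕ, 0 < d → minVol d / ENNReal.ofReal (5 * ((d : ℝ) + 1)) ≤ tau d ∧ tau d ≤ minVol d :=
  ⟨Pool.Agent.CX.a2_ML2.and (Pool.Agent.CX.a2_TA2.and final_tau_up), fun _ hd => lower_tau hd⟩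

end Pool.Agent.Results.MP_447e26_gt.OuterRates
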